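import Pool.Agent.Strip051.Box.C2
import Pool.Agent.Strip051.Box.S30
import Pool.Agent.Strip051.LB.Fc.F2

/-! # LINE tight chart ChB00U_pm_112 -/

namespace Pool.Agent.Strip051.LB.ChB00U_pm_112

open Pool.Agent.Strip051.Box Pool.Agent.Strip051.Box2

open Pool.Agent.Strip051.LB.Fc Pool.Agent.Strip051.LB.Fc.F2 Pool.Agent.Strip051.LB.Fn Pool.Agent.Strip051.LB.Fn.F2

/-- coordinates of a point of the box -/
def In (b : Bx) (E : Pt) (x1 x2 : ℝ) : Prop :=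
  (S : ℝ) * x1 = ((b.p1 : ℝ) - b.n1) + b.q1 * E.e1 ∧ (S : ℝ) * x2 = ((b.p2 : ℝ) - b.n2) + b.q2 * E.e2

variable {b : Bx} {E : Pt} {x1 x2 : ℝ}

def t0 (b : Bx) : TM := X1 b
noncomputable def v0 (x1 _x2 : ℝ) : ℝ := x1
theorem h0 (h : In b E x1 x2) : Enc S E (t0 b) (v0 x1 x2) := enc_X1 h.1

def t1 (b : Bx) : TM := X2 b
noncomputable def v1 (_x1 x2 : ℝ) : ℝ := x2
theorem h1 (h : In b E x1 x2) : Enc S E (t1 b) (v1 x1 x2) := enc_X2 h.2

def t2 (_b : Bx) : TM := tconst 1859775393 0 1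
noncomputable def v2 (_x1 _x2 : ℝ) : ℝ := Real.sqrt ((3 : ℕ) : ℝ)
theorem h2 (_h : In b E x1 x2) : Enc S E (t2 b) (v2 x1 x2) := enc_sqrtn E (by decide) (by decide)

def t3 (b : Bx) : TM := tscale 1 2 (t2 b)
noncomputable def v3 (x1 x2 : ℝ) : ℝ := ((1 : ℕ) : ℝ) / ((2 : ℕ) : ℝ) * v2 x1 x2
theorem h3 (h : In b E x1 x2) : Enc S E (t3 b) (v3 x1 x2) := enc_scale 1 (by norm_num) (h2 h)

def t4 (b : Bx) : TM := tsq S (t0 b)
noncomputable def v4 (x1 x2 : ℝ) : ℝ := (v0 x1 x2) ^ 2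
theorem h4 (h : In b E x1 x2) : Enc S E (t4 b) (v4 x1 x2) := enc_sq hS (h0 h)

def t5 (_b : Bx) : TM := tconst (Nat.mul 1 S) 0 0
noncomputable def v5 (_x1 _x2 : ℝ) : ℝ := ((1 : ℕ) : ℝ)
theorem h5 (_h : In b E x1 x2) : Enc S E (t5 b) (v5 x1 x2) := enc_nc E 1

def t6 (b : Bx) : TM := tsub (t5 b) (t4 b)
noncomputable def v6 (x1 x2 : ℝ) : ℝ := v5 x1 x2 - v4 x1 x2
theorem h6 (h : In b E x1 x2) : Enc S E (t6 b) (v6 x1 x2) := enc_sub (h5 h) (h4 h)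

def t7 (b : Bx) : TM := tsqrt S (t6 b)
noncomputable def v7 (x1 x2 : ℝ) : ℝ := Real.sqrt (v6 x1 x2)
theorem h7 (h : In b E x1 x2) : Enc S E (t7 b) (v7 x1 x2) := enc_sqrt hS (h6 h)

def t9 (_b : Bx) : TM := tconst (Nat.div (Nat.mul 1 S) 2) 0 1
noncomputable def v9 (_x1 _x2 : ℝ) : ℝ := ((1 : ℕ) : ℝ) / ((2 : ℕ) : ℝ)
theorem h9 (_h : In b E x1 x2) : Enc S E (t9 b) (v9 x1 x2) := enc_rat E 1 (by norm_num)

def t11 (b : Bx) : TM := tscale 1 2 (t7 b)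
noncomputable def v11 (x1 x2 : ℝ) : ℝ := ((1 : ℕ) : ℝ) / ((2 : ℕ) : ℝ) * v7 x1 x2
theorem h11 (h : In b E x1 x2) : Enc S E (t11 b) (v11 x1 x2) := enc_scale 1 (by norm_num) (h7 h)

def t13 (b : Bx) : TM := tmul S (t0 b) (t3 b)
noncomputable def v13 (x1 x2 : ℝ) : ℝ := v0 x1 x2 * v3 x1 x2
theorem h13 (h : In b E x1 x2) : Enc S E (t13 b) (v13 x1 x2) := enc_mul hS (h0 h) (h3 h)

def t15 (b : Bx) : TM := tscale 1 2 (t0 b)
noncomputable def v15 (x1 x2 : ℝ) : ℝ := ((1 : ℕ) : ℝ) / ((2 : ℕ) : ℝ) * v0 x1 x2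
theorem h15 (h : In b E x1 x2) : Enc S E (t15 b) (v15 x1 x2) := enc_scale 1 (by norm_num) (h0 h)

def t17 (b : Bx) : TM := tmul S (t7 b) (t3 b)
noncomputable def v17 (x1 x2 : ℝ) : ℝ := v7 x1 x2 * v3 x1 x2
theorem h17 (h : In b E x1 x2) : Enc S E (t17 b) (v17 x1 x2) := enc_mul hS (h7 h) (h3 h)

def t19 (b : Bx) : TM := tsub (t11 b) (t13 b)
noncomputable def v19 (x1 x2 : ℝ) : ℝ := v11 x1 x2 - v13 x1 x2
theorem h19 (h : In b E x1 x2) : Enc S E (t19 b) (v19 x1 x2) := enc_sub (h11 h) (h13 h)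

def t20 (b : Bx) : TM := tadd (t15 b) (t17 b)
noncomputable def v20 (x1 x2 : ℝ) : ℝ := v15 x1 x2 + v17 x1 x2
theorem h20 (h : In b E x1 x2) : Enc S E (t20 b) (v20 x1 x2) := enc_add (h15 h) (h17 h)

def t21 (b : Bx) : TM := tsub (t1 b) (t19 b)
noncomputable def v21 (x1 x2 : ℝ) : ℝ := v1 x1 x2 - v19 x1 x2
theorem h21 (h : In b E x1 x2) : Enc S E (t21 b) (v21 x1 x2) := enc_sub (h1 h) (h19 h)

def t22 (b : Bx) : TM := tsq S (t1 b)
noncomputable def v22 (x1 x2 : ℝ) : ℝ := (v1 x1 x2) ^ 2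
theorem h22 (h : In b E x1 x2) : Enc S E (t22 b) (v22 x1 x2) := enc_sq hS (h1 h)

def t23 (b : Bx) : TM := tsub (t5 b) (t22 b)
noncomputable def v23 (x1 x2 : ℝ) : ℝ := v5 x1 x2 - v22 x1 x2
theorem h23 (h : In b E x1 x2) : Enc S E (t23 b) (v23 x1 x2) := enc_sub (h5 h) (h22 h)

def t24 (b : Bx) : TM := tsqrt S (t23 b)
noncomputable def v24 (x1 x2 : ℝ) : ℝ := Real.sqrt (v23 x1 x2)
theorem h24 (h : In b E x1 x2) : Enc S E (t24 b) (v24 x1 x2) := enc_sqrt hS (h23 h)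

def t25 (b : Bx) : TM := tsub (t1 b) (t7 b)
noncomputable def v25 (x1 x2 : ℝ) : ℝ := v1 x1 x2 - v7 x1 x2
theorem h25 (h : In b E x1 x2) : Enc S E (t25 b) (v25 x1 x2) := enc_sub (h1 h) (h7 h)

def t26 (b : Bx) : TM := tsub (t24 b) (t0 b)
noncomputable def v26 (x1 x2 : ℝ) : ℝ := v24 x1 x2 - v0 x1 x2
theorem h26 (h : In b E x1 x2) : Enc S E (t26 b) (v26 x1 x2) := enc_sub (h24 h) (h0 h)

def t27 (b : Bx) : TM := tsub (t19 b) (t1 b)
noncomputable def v27 (x1 x2 : ℝ) : ℝ := v19 x1 x2 - v1 x1 x2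
theorem h27 (h : In b E x1 x2) : Enc S E (t27 b) (v27 x1 x2) := enc_sub (h19 h) (h1 h)

def t28 (b : Bx) : TM := tnat 2 (t7 b)
noncomputable def v28 (x1 x2 : ℝ) : ℝ := ((2 : ℕ) : ℝ) * v7 x1 x2
theorem h28 (h : In b E x1 x2) : Enc S E (t28 b) (v28 x1 x2) := enc_nat 2 (h7 h)

def t29 (b : Bx) : TM := tadd (t5 b) (t28 b)
noncomputable def v29 (x1 x2 : ℝ) : ℝ := v5 x1 x2 + v28 x1 x2
theorem h29 (h : In b E x1 x2) : Enc S E (t29 b) (v29 x1 x2) := enc_add (h5 h) (h28 h)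

def t30 (b : Bx) : TM := tmul S (t2 b) (t0 b)
noncomputable def v30 (x1 x2 : ℝ) : ℝ := v2 x1 x2 * v0 x1 x2
theorem h30 (h : In b E x1 x2) : Enc S E (t30 b) (v30 x1 x2) := enc_mul hS (h2 h) (h0 h)

def t31 (b : Bx) : TM := tsub (t30 b) (t7 b)
noncomputable def v31 (x1 x2 : ℝ) : ℝ := v30 x1 x2 - v7 x1 x2
theorem h31 (h : In b E x1 x2) : Enc S E (t31 b) (v31 x1 x2) := enc_sub (h30 h) (h7 h)

def t32 (b : Bx) : TM := tmul S (t29 b) (t31 b)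
noncomputable def v32 (x1 x2 : ℝ) : ℝ := v29 x1 x2 * v31 x1 x2
theorem h32 (h : In b E x1 x2) : Enc S E (t32 b) (v32 x1 x2) := enc_mul hS (h29 h) (h31 h)

def t33 (b : Bx) : TM := tadd (t5 b) (t30 b)
noncomputable def v33 (x1 x2 : ℝ) : ℝ := v5 x1 x2 + v30 x1 x2
theorem h33 (h : In b E x1 x2) : Enc S E (t33 b) (v33 x1 x2) := enc_add (h5 h) (h30 h)

def t34 (b : Bx) : TM := tsub (t33 b) (t7 b)
noncomputable def v34 (x1 x2 : ℝ) : ℝ := v33 x1 x2 - v7 x1 x2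
theorem h34 (h : In b E x1 x2) : Enc S E (t34 b) (v34 x1 x2) := enc_sub (h33 h) (h7 h)

def t35 (b : Bx) : TM := tnat 2 (t34 b)
noncomputable def v35 (x1 x2 : ℝ) : ℝ := ((2 : ℕ) : ℝ) * v34 x1 x2
theorem h35 (h : In b E x1 x2) : Enc S E (t35 b) (v35 x1 x2) := enc_nat 2 (h34 h)

def t36 (b : Bx) : TM := tinv S (t35 b)
noncomputable def v36 (x1 x2 : ℝ) : ℝ := (v35 x1 x2)⁻¹
theorem h36 (h : In b E x1 x2) : Enc S E (t36 b) (v36 x1 x2) := enc_inv hS (h35 h)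

def t37 (b : Bx) : TM := tmul S (t32 b) (t36 b)
noncomputable def v37 (x1 x2 : ℝ) : ℝ := v32 x1 x2 * v36 x1 x2
theorem h37 (h : In b E x1 x2) : Enc S E (t37 b) (v37 x1 x2) := enc_mul hS (h32 h) (h36 h)

def t39 (b : Bx) : TM := tsq S (t25 b)
noncomputable def v39 (x1 x2 : ℝ) : ℝ := (v25 x1 x2) ^ 2
theorem h39 (h : In b E x1 x2) : Enc S E (t39 b) (v39 x1 x2) := enc_sq hS (h25 h)

def t40 (b : Bx) : TM := tsq S (t26 b)
noncomputable def v40 (x1 x2 : ℝ) : ℝ := (v26 x1 x2) ^ 2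
theorem h40 (h : In b E x1 x2) : Enc S E (t40 b) (v40 x1 x2) := enc_sq hS (h26 h)

def t41 (b : Bx) : TM := tadd (t39 b) (t40 b)
noncomputable def v41 (x1 x2 : ℝ) : ℝ := v39 x1 x2 + v40 x1 x2
theorem h41 (h : In b E x1 x2) : Enc S E (t41 b) (v41 x1 x2) := enc_add (h39 h) (h40 h)

def t45 (b : Bx) : TM := tsub (t19 b) (t7 b)
noncomputable def v45 (x1 x2 : ℝ) : ℝ := v19 x1 x2 - v7 x1 x2
theorem h45 (h : In b E x1 x2) : Enc S E (t45 b) (v45 x1 x2) := enc_sub (h19 h) (h7 h)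

def t47 (b : Bx) : TM := tadd (t25 b) (t45 b)
noncomputable def v47 (x1 x2 : ℝ) : ℝ := v25 x1 x2 + v45 x1 x2
theorem h47 (h : In b E x1 x2) : Enc S E (t47 b) (v47 x1 x2) := enc_add (h25 h) (h45 h)

def t50 (b : Bx) : TM := tadd (t1 b) (t19 b)
noncomputable def v50 (x1 x2 : ℝ) : ℝ := v1 x1 x2 + v19 x1 x2
theorem h50 (h : In b E x1 x2) : Enc S E (t50 b) (v50 x1 x2) := enc_add (h1 h) (h19 h)

def t53 (b : Bx) : TM := tadd (t24 b) (t20 b)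
noncomputable def v53 (x1 x2 : ℝ) : ℝ := v24 x1 x2 + v20 x1 x2
theorem h53 (h : In b E x1 x2) : Enc S E (t53 b) (v53 x1 x2) := enc_add (h24 h) (h20 h)

def t54 (b : Bx) : TM := tinv S (t53 b)
noncomputable def v54 (x1 x2 : ℝ) : ℝ := (v53 x1 x2)⁻¹
theorem h54 (h : In b E x1 x2) : Enc S E (t54 b) (v54 x1 x2) := enc_inv hS (h53 h)

def t55 (b : Bx) : TM := tmul S (t50 b) (t54 b)
noncomputable def v55 (x1 x2 : ℝ) : ℝ := v50 x1 x2 * v54 x1 x2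
theorem h55 (h : In b E x1 x2) : Enc S E (t55 b) (v55 x1 x2) := enc_mul hS (h50 h) (h54 h)

def t56 (b : Bx) : TM := tsub (t20 b) (t0 b)
noncomputable def v56 (x1 x2 : ℝ) : ℝ := v20 x1 x2 - v0 x1 x2
theorem h56 (h : In b E x1 x2) : Enc S E (t56 b) (v56 x1 x2) := enc_sub (h20 h) (h0 h)

def t58 (b : Bx) : TM := tadd (t26 b) (t56 b)
noncomputable def v58 (x1 x2 : ℝ) : ℝ := v26 x1 x2 + v56 x1 x2
theorem h58 (h : In b E x1 x2) : Enc S E (t58 b) (v58 x1 x2) := enc_add (h26 h) (h56 h)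

def t59 (b : Bx) : TM := tmul S (t55 b) (t58 b)
noncomputable def v59 (x1 x2 : ℝ) : ℝ := v55 x1 x2 * v58 x1 x2
theorem h59 (h : In b E x1 x2) : Enc S E (t59 b) (v59 x1 x2) := enc_mul hS (h55 h) (h58 h)

def t61 (b : Bx) : TM := tsub (t59 b) (t47 b)
noncomputable def v61 (x1 x2 : ℝ) : ℝ := v59 x1 x2 - v47 x1 x2
theorem h61 (h : In b E x1 x2) : Enc S E (t61 b) (v61 x1 x2) := enc_sub (h59 h) (h47 h)

def t63 (b : Bx) : TM := tsub (t7 b) (t1 b)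
noncomputable def v63 (x1 x2 : ℝ) : ℝ := v7 x1 x2 - v1 x1 x2
theorem h63 (h : In b E x1 x2) : Enc S E (t63 b) (v63 x1 x2) := enc_sub (h7 h) (h1 h)

def t64 (b : Bx) : TM := tsub (t5 b) (t40 b)
noncomputable def v64 (x1 x2 : ℝ) : ℝ := v5 x1 x2 - v40 x1 x2
theorem h64 (h : In b E x1 x2) : Enc S E (t64 b) (v64 x1 x2) := enc_sub (h5 h) (h40 h)

def t65 (b : Bx) : TM := tsqrt S (t64 b)
noncomputable def v65 (x1 x2 : ℝ) : ℝ := Real.sqrt (v64 x1 x2)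
theorem h65 (h : In b E x1 x2) : Enc S E (t65 b) (v65 x1 x2) := enc_sqrt hS (h64 h)

def t66 (b : Bx) : TM := tadd (t13 b) (t11 b)
noncomputable def v66 (x1 x2 : ℝ) : ℝ := v13 x1 x2 + v11 x1 x2
theorem h66 (h : In b E x1 x2) : Enc S E (t66 b) (v66 x1 x2) := enc_add (h13 h) (h11 h)

def t67 (b : Bx) : TM := tnat 2 (t65 b)
noncomputable def v67 (x1 x2 : ℝ) : ℝ := ((2 : ℕ) : ℝ) * v65 x1 x2
theorem h67 (h : In b E x1 x2) : Enc S E (t67 b) (v67 x1 x2) := enc_nat 2 (h65 h)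

def t68 (b : Bx) : TM := tadd (t5 b) (t67 b)
noncomputable def v68 (x1 x2 : ℝ) : ℝ := v5 x1 x2 + v67 x1 x2
theorem h68 (h : In b E x1 x2) : Enc S E (t68 b) (v68 x1 x2) := enc_add (h5 h) (h67 h)

def t69 (b : Bx) : TM := tmul S (t2 b) (t26 b)
noncomputable def v69 (x1 x2 : ℝ) : ℝ := v2 x1 x2 * v26 x1 x2
theorem h69 (h : In b E x1 x2) : Enc S E (t69 b) (v69 x1 x2) := enc_mul hS (h2 h) (h26 h)

def t70 (b : Bx) : TM := tsub (t69 b) (t65 b)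
noncomputable def v70 (x1 x2 : ℝ) : ℝ := v69 x1 x2 - v65 x1 x2
theorem h70 (h : In b E x1 x2) : Enc S E (t70 b) (v70 x1 x2) := enc_sub (h69 h) (h65 h)

def t71 (b : Bx) : TM := tmul S (t68 b) (t70 b)
noncomputable def v71 (x1 x2 : ℝ) : ℝ := v68 x1 x2 * v70 x1 x2
theorem h71 (h : In b E x1 x2) : Enc S E (t71 b) (v71 x1 x2) := enc_mul hS (h68 h) (h70 h)

def t72 (b : Bx) : TM := tadd (t5 b) (t69 b)
noncomputable def v72 (x1 x2 : ℝ) : ℝ := v5 x1 x2 + v69 x1 x2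
theorem h72 (h : In b E x1 x2) : Enc S E (t72 b) (v72 x1 x2) := enc_add (h5 h) (h69 h)

def t73 (b : Bx) : TM := tsub (t72 b) (t65 b)
noncomputable def v73 (x1 x2 : ℝ) : ℝ := v72 x1 x2 - v65 x1 x2
theorem h73 (h : In b E x1 x2) : Enc S E (t73 b) (v73 x1 x2) := enc_sub (h72 h) (h65 h)

def t74 (b : Bx) : TM := tnat 2 (t73 b)
noncomputable def v74 (x1 x2 : ℝ) : ℝ := ((2 : ℕ) : ℝ) * v73 x1 x2
theorem h74 (h : In b E x1 x2) : Enc S E (t74 b) (v74 x1 x2) := enc_nat 2 (h73 h)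

def t75 (b : Bx) : TM := tinv S (t74 b)
noncomputable def v75 (x1 x2 : ℝ) : ℝ := (v74 x1 x2)⁻¹
theorem h75 (h : In b E x1 x2) : Enc S E (t75 b) (v75 x1 x2) := enc_inv hS (h74 h)

def t76 (b : Bx) : TM := tmul S (t71 b) (t75 b)
noncomputable def v76 (x1 x2 : ℝ) : ℝ := v71 x1 x2 * v75 x1 x2
theorem h76 (h : In b E x1 x2) : Enc S E (t76 b) (v76 x1 x2) := enc_mul hS (h71 h) (h75 h)

def t79 (b : Bx) : TM := tadd (t65 b) (t66 b)
noncomputable def v79 (x1 x2 : ℝ) : ℝ := v65 x1 x2 + v66 x1 x2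
theorem h79 (h : In b E x1 x2) : Enc S E (t79 b) (v79 x1 x2) := enc_add (h65 h) (h66 h)

def t80 (b : Bx) : TM := tinv S (t79 b)
noncomputable def v80 (x1 x2 : ℝ) : ℝ := (v79 x1 x2)⁻¹
theorem h80 (h : In b E x1 x2) : Enc S E (t80 b) (v80 x1 x2) := enc_inv hS (h79 h)

def t81 (b : Bx) : TM := tmul S (t59 b) (t80 b)
noncomputable def v81 (x1 x2 : ℝ) : ℝ := v59 x1 x2 * v80 x1 x2
theorem h81 (h : In b E x1 x2) : Enc S E (t81 b) (v81 x1 x2) := enc_mul hS (h59 h) (h80 h)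

def t83 (b : Bx) : TM := tnat 2 (t66 b)
noncomputable def v83 (x1 x2 : ℝ) : ℝ := ((2 : ℕ) : ℝ) * v66 x1 x2
theorem h83 (h : In b E x1 x2) : Enc S E (t83 b) (v83 x1 x2) := enc_nat 2 (h66 h)

def t84 (b : Bx) : TM := tnat 2 (t81 b)
noncomputable def v84 (x1 x2 : ℝ) : ℝ := ((2 : ℕ) : ℝ) * v81 x1 x2
theorem h84 (h : In b E x1 x2) : Enc S E (t84 b) (v84 x1 x2) := enc_nat 2 (h81 h)

def t86 (b : Bx) : TM := tadd (t5 b) (t83 b)
noncomputable def v86 (x1 x2 : ℝ) : ℝ := v5 x1 x2 + v83 x1 x2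
theorem h86 (h : In b E x1 x2) : Enc S E (t86 b) (v86 x1 x2) := enc_add (h5 h) (h83 h)

def t87 (b : Bx) : TM := tmul S (t2 b) (t56 b)
noncomputable def v87 (x1 x2 : ℝ) : ℝ := v2 x1 x2 * v56 x1 x2
theorem h87 (h : In b E x1 x2) : Enc S E (t87 b) (v87 x1 x2) := enc_mul hS (h2 h) (h56 h)

def t88 (b : Bx) : TM := tmul S (t2 b) (t55 b)
noncomputable def v88 (x1 x2 : ℝ) : ℝ := v2 x1 x2 * v55 x1 x2
theorem h88 (h : In b E x1 x2) : Enc S E (t88 b) (v88 x1 x2) := enc_mul hS (h2 h) (h55 h)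

def t89 (b : Bx) : TM := tsub (t87 b) (t66 b)
noncomputable def v89 (x1 x2 : ℝ) : ℝ := v87 x1 x2 - v66 x1 x2
theorem h89 (h : In b E x1 x2) : Enc S E (t89 b) (v89 x1 x2) := enc_sub (h87 h) (h66 h)

def t90 (b : Bx) : TM := tadd (t88 b) (t81 b)
noncomputable def v90 (x1 x2 : ℝ) : ℝ := v88 x1 x2 + v81 x1 x2
theorem h90 (h : In b E x1 x2) : Enc S E (t90 b) (v90 x1 x2) := enc_add (h88 h) (h81 h)

def t91 (b : Bx) : TM := tmul S (t86 b) (t89 b)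
noncomputable def v91 (x1 x2 : ℝ) : ℝ := v86 x1 x2 * v89 x1 x2
theorem h91 (h : In b E x1 x2) : Enc S E (t91 b) (v91 x1 x2) := enc_mul hS (h86 h) (h89 h)

def t92 (b : Bx) : TM := tmul S (t84 b) (t70 b)
noncomputable def v92 (x1 x2 : ℝ) : ℝ := v84 x1 x2 * v70 x1 x2
theorem h92 (h : In b E x1 x2) : Enc S E (t92 b) (v92 x1 x2) := enc_mul hS (h84 h) (h70 h)

def t94 (b : Bx) : TM := tmul S (t86 b) (t90 b)
noncomputable def v94 (x1 x2 : ℝ) : ℝ := v86 x1 x2 * v90 x1 x2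
theorem h94 (h : In b E x1 x2) : Enc S E (t94 b) (v94 x1 x2) := enc_mul hS (h86 h) (h90 h)

def t95 (b : Bx) : TM := tsub (t94 b) (t92 b)
noncomputable def v95 (x1 x2 : ℝ) : ℝ := v94 x1 x2 - v92 x1 x2
theorem h95 (h : In b E x1 x2) : Enc S E (t95 b) (v95 x1 x2) := enc_sub (h94 h) (h92 h)

def t96 (b : Bx) : TM := tadd (t5 b) (t87 b)
noncomputable def v96 (x1 x2 : ℝ) : ℝ := v5 x1 x2 + v87 x1 x2
theorem h96 (h : In b E x1 x2) : Enc S E (t96 b) (v96 x1 x2) := enc_add (h5 h) (h87 h)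

def t97 (b : Bx) : TM := tsub (t96 b) (t66 b)
noncomputable def v97 (x1 x2 : ℝ) : ℝ := v96 x1 x2 - v66 x1 x2
theorem h97 (h : In b E x1 x2) : Enc S E (t97 b) (v97 x1 x2) := enc_sub (h96 h) (h66 h)

def t98 (b : Bx) : TM := tnat 2 (t97 b)
noncomputable def v98 (x1 x2 : ℝ) : ℝ := ((2 : ℕ) : ℝ) * v97 x1 x2
theorem h98 (h : In b E x1 x2) : Enc S E (t98 b) (v98 x1 x2) := enc_nat 2 (h97 h)

def t99 (b : Bx) : TM := tnat 2 (t90 b)
noncomputable def v99 (x1 x2 : ℝ) : ℝ := ((2 : ℕ) : ℝ) * v90 x1 x2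
theorem h99 (h : In b E x1 x2) : Enc S E (t99 b) (v99 x1 x2) := enc_nat 2 (h90 h)

def t100 (b : Bx) : TM := tinv S (t98 b)
noncomputable def v100 (x1 x2 : ℝ) : ℝ := (v98 x1 x2)⁻¹
theorem h100 (h : In b E x1 x2) : Enc S E (t100 b) (v100 x1 x2) := enc_inv hS (h98 h)

def t101 (b : Bx) : TM := tmul S (t75 b) (t100 b)
noncomputable def v101 (x1 x2 : ℝ) : ℝ := v75 x1 x2 * v100 x1 x2
theorem h101 (h : In b E x1 x2) : Enc S E (t101 b) (v101 x1 x2) := enc_mul hS (h75 h) (h100 h)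

def t102 (b : Bx) : TM := tmul S (t99 b) (t101 b)
noncomputable def v102 (x1 x2 : ℝ) : ℝ := v99 x1 x2 * v101 x1 x2
theorem h102 (h : In b E x1 x2) : Enc S E (t102 b) (v102 x1 x2) := enc_mul hS (h99 h) (h101 h)

def t105 (b : Bx) : TM := tmul S (t95 b) (t75 b)
noncomputable def v105 (x1 x2 : ℝ) : ℝ := v95 x1 x2 * v75 x1 x2
theorem h105 (h : In b E x1 x2) : Enc S E (t105 b) (v105 x1 x2) := enc_mul hS (h95 h) (h75 h)

def t106 (b : Bx) : TM := tmul S (t91 b) (t102 b)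
noncomputable def v106 (x1 x2 : ℝ) : ℝ := v91 x1 x2 * v102 x1 x2
theorem h106 (h : In b E x1 x2) : Enc S E (t106 b) (v106 x1 x2) := enc_mul hS (h91 h) (h102 h)

def t108 (b : Bx) : TM := tsub (t105 b) (t106 b)
noncomputable def v108 (x1 x2 : ℝ) : ℝ := v105 x1 x2 - v106 x1 x2
theorem h108 (h : In b E x1 x2) : Enc S E (t108 b) (v108 x1 x2) := enc_sub (h105 h) (h106 h)

def t109 (b : Bx) : TM := kxq1_t (t63 b) (t26 b)
noncomputable def v109 (x1 x2 : ℝ) : ℝ := kxq1_v (v63 x1 x2) (v26 x1 x2)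
theorem h109 (h : In b E x1 x2) : Enc S E (t109 b) (v109 x1 x2) := kxq1_enc (h63 h) (h26 h)

def t110 (b : Bx) : TM := tadd (t63 b) (t65 b)
noncomputable def v110 (x1 x2 : ℝ) : ℝ := v63 x1 x2 + v65 x1 x2
theorem h110 (h : In b E x1 x2) : Enc S E (t110 b) (v110 x1 x2) := enc_add (h63 h) (h65 h)

def t111 (b : Bx) : TM := f2m_t (t26 b)
noncomputable def v111 (x1 x2 : ℝ) : ℝ := f2m_v (v26 x1 x2)
theorem h111 (h : In b E x1 x2) : Enc S E (t111 b) (v111 x1 x2) := f2m_enc (h26 h)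

def t112 (b : Bx) : TM := tsub (t111 b) (t63 b)
noncomputable def v112 (x1 x2 : ℝ) : ℝ := v111 x1 x2 - v63 x1 x2
theorem h112 (h : In b E x1 x2) : Enc S E (t112 b) (v112 x1 x2) := enc_sub (h111 h) (h63 h)

def t113 (b : Bx) : TM := tsub (t63 b) (t65 b)
noncomputable def v113 (x1 x2 : ℝ) : ℝ := v63 x1 x2 - v65 x1 x2
theorem h113 (h : In b E x1 x2) : Enc S E (t113 b) (v113 x1 x2) := enc_sub (h63 h) (h65 h)

def t114 (b : Bx) : TM := tmul S (t113 b) (t109 b)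
noncomputable def v114 (x1 x2 : ℝ) : ℝ := v113 x1 x2 * v109 x1 x2
theorem h114 (h : In b E x1 x2) : Enc S E (t114 b) (v114 x1 x2) := enc_mul hS (h113 h) (h109 h)

def t115 (b : Bx) : TM := tadd (t76 b) (t114 b)
noncomputable def v115 (x1 x2 : ℝ) : ℝ := v76 x1 x2 + v114 x1 x2
theorem h115 (h : In b E x1 x2) : Enc S E (t115 b) (v115 x1 x2) := enc_add (h76 h) (h114 h)

def t118 (b : Bx) : TM := tmul S (t61 b) (t109 b)
noncomputable def v118 (x1 x2 : ℝ) : ℝ := v61 x1 x2 * v109 x1 x2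
theorem h118 (h : In b E x1 x2) : Enc S E (t118 b) (v118 x1 x2) := enc_mul hS (h61 h) (h109 h)

def t119 (b : Bx) : TM := tinv S (t110 b)
noncomputable def v119 (x1 x2 : ℝ) : ℝ := (v110 x1 x2)⁻¹
theorem h119 (h : In b E x1 x2) : Enc S E (t119 b) (v119 x1 x2) := enc_inv hS (h110 h)

def t120 (b : Bx) : TM := tmul S (t118 b) (t119 b)
noncomputable def v120 (x1 x2 : ℝ) : ℝ := v118 x1 x2 * v119 x1 x2
theorem h120 (h : In b E x1 x2) : Enc S E (t120 b) (v120 x1 x2) := enc_mul hS (h118 h) (h119 h)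

def t121 (b : Bx) : TM := tadd (t108 b) (t120 b)
noncomputable def v121 (x1 x2 : ℝ) : ℝ := v108 x1 x2 + v120 x1 x2
theorem h121 (h : In b E x1 x2) : Enc S E (t121 b) (v121 x1 x2) := enc_add (h108 h) (h120 h)

def t123 (b : Bx) : TM := tmul S (t7 b) (t24 b)
noncomputable def v123 (x1 x2 : ℝ) : ℝ := v7 x1 x2 * v24 x1 x2
theorem h123 (h : In b E x1 x2) : Enc S E (t123 b) (v123 x1 x2) := enc_mul hS (h7 h) (h24 h)

def t124 (b : Bx) : TM := tmul S (t1 b) (t0 b)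
noncomputable def v124 (x1 x2 : ℝ) : ℝ := v1 x1 x2 * v0 x1 x2
theorem h124 (h : In b E x1 x2) : Enc S E (t124 b) (v124 x1 x2) := enc_mul hS (h1 h) (h0 h)

def t125 (b : Bx) : TM := tsub (t123 b) (t124 b)
noncomputable def v125 (x1 x2 : ℝ) : ℝ := v123 x1 x2 - v124 x1 x2
theorem h125 (h : In b E x1 x2) : Enc S E (t125 b) (v125 x1 x2) := enc_sub (h123 h) (h124 h)

def t126 (b : Bx) : TM := tinv S (t2 b)
noncomputable def v126 (x1 x2 : ℝ) : ℝ := (v2 x1 x2)⁻¹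
theorem h126 (h : In b E x1 x2) : Enc S E (t126 b) (v126 x1 x2) := enc_inv hS (h2 h)

def t127 (b : Bx) : TM := tmul S (t125 b) (t126 b)
noncomputable def v127 (x1 x2 : ℝ) : ℝ := v125 x1 x2 * v126 x1 x2
theorem h127 (h : In b E x1 x2) : Enc S E (t127 b) (v127 x1 x2) := enc_mul hS (h125 h) (h126 h)

def t128 (b : Bx) : TM := tsub (t127 b) (t9 b)
noncomputable def v128 (x1 x2 : ℝ) : ℝ := v127 x1 x2 - v9 x1 x2
theorem h128 (h : In b E x1 x2) : Enc S E (t128 b) (v128 x1 x2) := enc_sub (h127 h) (h9 h)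

def t130 (b : Bx) : TM := tmul S (t7 b) (t55 b)
noncomputable def v130 (x1 x2 : ℝ) : ℝ := v7 x1 x2 * v55 x1 x2
theorem h130 (h : In b E x1 x2) : Enc S E (t130 b) (v130 x1 x2) := enc_mul hS (h7 h) (h55 h)

def t134 (b : Bx) : TM := tadd (t130 b) (t0 b)
noncomputable def v134 (x1 x2 : ℝ) : ℝ := v130 x1 x2 + v0 x1 x2
theorem h134 (h : In b E x1 x2) : Enc S E (t134 b) (v134 x1 x2) := enc_add (h130 h) (h0 h)

def t136 (b : Bx) : TM := tmul S (t134 b) (t126 b)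
noncomputable def v136 (x1 x2 : ℝ) : ℝ := v134 x1 x2 * v126 x1 x2
theorem h136 (h : In b E x1 x2) : Enc S E (t136 b) (v136 x1 x2) := enc_mul hS (h134 h) (h126 h)

def t138 (b : Bx) : TM := tsub (t0 b) (t3 b)
noncomputable def v138 (x1 x2 : ℝ) : ℝ := v0 x1 x2 - v3 x1 x2
theorem h138 (h : In b E x1 x2) : Enc S E (t138 b) (v138 x1 x2) := enc_sub (h0 h) (h3 h)

def t139 (b : Bx) : TM := tsub (t26 b) (t3 b)
noncomputable def v139 (x1 x2 : ℝ) : ℝ := v26 x1 x2 - v3 x1 x2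
theorem h139 (h : In b E x1 x2) : Enc S E (t139 b) (v139 x1 x2) := enc_sub (h26 h) (h3 h)

def t140 (b : Bx) : TM := tsub (t24 b) (t3 b)
noncomputable def v140 (x1 x2 : ℝ) : ℝ := v24 x1 x2 - v3 x1 x2
theorem h140 (h : In b E x1 x2) : Enc S E (t140 b) (v140 x1 x2) := enc_sub (h24 h) (h3 h)

def t153 (b : Bx) : TM := tmul S (t138 b) (t121 b)
noncomputable def v153 (x1 x2 : ℝ) : ℝ := v138 x1 x2 * v121 x1 x2
theorem h153 (h : In b E x1 x2) : Enc S E (t153 b) (v153 x1 x2) := enc_mul hS (h138 h) (h121 h)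

def t154 (b : Bx) : TM := tneg (t153 b)
noncomputable def v154 (x1 x2 : ℝ) : ℝ := -(v153 x1 x2)
theorem h154 (h : In b E x1 x2) : Enc S E (t154 b) (v154 x1 x2) := enc_neg (h153 h)

def t155 (b : Bx) : TM := tmul S (t55 b) (t37 b)
noncomputable def v155 (x1 x2 : ℝ) : ℝ := v55 x1 x2 * v37 x1 x2
theorem h155 (h : In b E x1 x2) : Enc S E (t155 b) (v155 x1 x2) := enc_mul hS (h55 h) (h37 h)

def t156 (b : Bx) : TM := tsub (t154 b) (t155 b)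
noncomputable def v156 (x1 x2 : ℝ) : ℝ := v154 x1 x2 - v155 x1 x2
theorem h156 (h : In b E x1 x2) : Enc S E (t156 b) (v156 x1 x2) := enc_sub (h154 h) (h155 h)

def t157 (b : Bx) : TM := tsub (t20 b) (t3 b)
noncomputable def v157 (x1 x2 : ℝ) : ℝ := v20 x1 x2 - v3 x1 x2
theorem h157 (h : In b E x1 x2) : Enc S E (t157 b) (v157 x1 x2) := enc_sub (h20 h) (h3 h)

def t158 (b : Bx) : TM := tmul S (t55 b) (t115 b)
noncomputable def v158 (x1 x2 : ℝ) : ℝ := v55 x1 x2 * v115 x1 x2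
theorem h158 (h : In b E x1 x2) : Enc S E (t158 b) (v158 x1 x2) := enc_mul hS (h55 h) (h115 h)

def t159 (b : Bx) : TM := tneg (t158 b)
noncomputable def v159 (x1 x2 : ℝ) : ℝ := -(v158 x1 x2)
theorem h159 (h : In b E x1 x2) : Enc S E (t159 b) (v159 x1 x2) := enc_neg (h158 h)

def t160 (b : Bx) : TM := tmul S (t157 b) (t121 b)
noncomputable def v160 (x1 x2 : ℝ) : ℝ := v157 x1 x2 * v121 x1 x2
theorem h160 (h : In b E x1 x2) : Enc S E (t160 b) (v160 x1 x2) := enc_mul hS (h157 h) (h121 h)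

def t162 (b : Bx) : TM := tsub (t159 b) (t160 b)
noncomputable def v162 (x1 x2 : ℝ) : ℝ := v159 x1 x2 - v160 x1 x2
theorem h162 (h : In b E x1 x2) : Enc S E (t162 b) (v162 x1 x2) := enc_sub (h159 h) (h160 h)

def t163 (b : Bx) : TM := tmul S (t55 b) (t1 b)
noncomputable def v163 (x1 x2 : ℝ) : ℝ := v55 x1 x2 * v1 x1 x2
theorem h163 (h : In b E x1 x2) : Enc S E (t163 b) (v163 x1 x2) := enc_mul hS (h55 h) (h1 h)

def t164 (b : Bx) : TM := tsub (t162 b) (t163 b)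
noncomputable def v164 (x1 x2 : ℝ) : ℝ := v162 x1 x2 - v163 x1 x2
theorem h164 (h : In b E x1 x2) : Enc S E (t164 b) (v164 x1 x2) := enc_sub (h162 h) (h163 h)

def t165 (b : Bx) : TM := tsub (t3 b) (t56 b)
noncomputable def v165 (x1 x2 : ℝ) : ℝ := v3 x1 x2 - v56 x1 x2
theorem h165 (h : In b E x1 x2) : Enc S E (t165 b) (v165 x1 x2) := enc_sub (h3 h) (h56 h)

def t166 (b : Bx) : TM := tsub (t164 b) (t165 b)
noncomputable def v166 (x1 x2 : ℝ) : ℝ := v164 x1 x2 - v165 x1 x2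
theorem h166 (h : In b E x1 x2) : Enc S E (t166 b) (v166 x1 x2) := enc_sub (h164 h) (h165 h)

def t167 (b : Bx) : TM := tsub (t3 b) (t0 b)
noncomputable def v167 (x1 x2 : ℝ) : ℝ := v3 x1 x2 - v0 x1 x2
theorem h167 (h : In b E x1 x2) : Enc S E (t167 b) (v167 x1 x2) := enc_sub (h3 h) (h0 h)

def t168 (b : Bx) : TM := tsub (t167 b) (t155 b)
noncomputable def v168 (x1 x2 : ℝ) : ℝ := v167 x1 x2 - v155 x1 x2
theorem h168 (h : In b E x1 x2) : Enc S E (t168 b) (v168 x1 x2) := enc_sub (h167 h) (h155 h)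

def t169 (b : Bx) : TM := tsub (t3 b) (t26 b)
noncomputable def v169 (x1 x2 : ℝ) : ℝ := v3 x1 x2 - v26 x1 x2
theorem h169 (h : In b E x1 x2) : Enc S E (t169 b) (v169 x1 x2) := enc_sub (h3 h) (h26 h)

def t170 (b : Bx) : TM := qw_t (t140 b) (t169 b) (t167 b) (t136 b) (t166 b) (t156 b) (t168 b)
noncomputable def v170 (x1 x2 : ℝ) : ℝ := qw_v (v140 x1 x2) (v169 x1 x2) (v167 x1 x2) (v136 x1 x2) (v166 x1 x2) (v156 x1 x2) (v168 x1 x2)
theorem h170 (h : In b E x1 x2) : Enc S E (t170 b) (v170 x1 x2) := qw_enc (h140 h) (h169 h) (h167 h) (h136 h) (h166 h) (h156 h) (h168 h)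

def t171 (b : Bx) : TM := tscale 1 4 (t2 b)
noncomputable def v171 (x1 x2 : ℝ) : ℝ := ((1 : ℕ) : ℝ) / ((4 : ℕ) : ℝ) * v2 x1 x2
theorem h171 (h : In b E x1 x2) : Enc S E (t171 b) (v171 x1 x2) := enc_scale 1 (by norm_num) (h2 h)

def t173 (b : Bx) : TM := tsub (t171 b) (t0 b)
noncomputable def v173 (x1 x2 : ℝ) : ℝ := v171 x1 x2 - v0 x1 x2
theorem h173 (h : In b E x1 x2) : Enc S E (t173 b) (v173 x1 x2) := enc_sub (h171 h) (h0 h)

def t175 (b : Bx) : TM := tsub (t171 b) (t26 b)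
noncomputable def v175 (x1 x2 : ℝ) : ℝ := v171 x1 x2 - v26 x1 x2
theorem h175 (h : In b E x1 x2) : Enc S E (t175 b) (v175 x1 x2) := enc_sub (h171 h) (h26 h)

def t176 (b : Bx) : TM := tsub (t3 b) (t24 b)
noncomputable def v176 (x1 x2 : ℝ) : ℝ := v3 x1 x2 - v24 x1 x2
theorem h176 (h : In b E x1 x2) : Enc S E (t176 b) (v176 x1 x2) := enc_sub (h3 h) (h24 h)

def t177 (b : Bx) : TM := tscale 3 4 (t2 b)
noncomputable def v177 (x1 x2 : ℝ) : ℝ := ((3 : ℕ) : ℝ) / ((4 : ℕ) : ℝ) * v2 x1 x2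
theorem h177 (h : In b E x1 x2) : Enc S E (t177 b) (v177 x1 x2) := enc_scale 3 (by norm_num) (h2 h)

def t179 (b : Bx) : TM := tsub (t24 b) (t177 b)
noncomputable def v179 (x1 x2 : ℝ) : ℝ := v24 x1 x2 - v177 x1 x2
theorem h179 (h : In b E x1 x2) : Enc S E (t179 b) (v179 x1 x2) := enc_sub (h24 h) (h177 h)

def t180 (_b : Bx) : TM := tconst (Nat.div (Nat.mul 1 S) 16) 0 1
noncomputable def v180 (_x1 _x2 : ℝ) : ℝ := ((1 : ℕ) : ℝ) / ((16 : ℕ) : ℝ)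
theorem h180 (_h : In b E x1 x2) : Enc S E (t180 b) (v180 x1 x2) := enc_rat E 1 (by norm_num)

def t181 (b : Bx) : TM := tsub (t27 b) (t180 b)
noncomputable def v181 (x1 x2 : ℝ) : ℝ := v27 x1 x2 - v180 x1 x2
theorem h181 (h : In b E x1 x2) : Enc S E (t181 b) (v181 x1 x2) := enc_sub (h27 h) (h180 h)

def t182 (b : Bx) : TM := tsub (t21 b) (t180 b)
noncomputable def v182 (x1 x2 : ℝ) : ℝ := v21 x1 x2 - v180 x1 x2
theorem h182 (h : In b E x1 x2) : Enc S E (t182 b) (v182 x1 x2) := enc_sub (h21 h) (h180 h)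

def t183 (b : Bx) : TM := tsub (t0 b) (t24 b)
noncomputable def v183 (x1 x2 : ℝ) : ℝ := v0 x1 x2 - v24 x1 x2
theorem h183 (h : In b E x1 x2) : Enc S E (t183 b) (v183 x1 x2) := enc_sub (h0 h) (h24 h)

def t184 (b : Bx) : TM := tsub (t5 b) (t41 b)
noncomputable def v184 (x1 x2 : ℝ) : ℝ := v5 x1 x2 - v41 x1 x2
theorem h184 (h : In b E x1 x2) : Enc S E (t184 b) (v184 x1 x2) := enc_sub (h5 h) (h41 h)

def t185 (b : Bx) : TM := tadd (t128 b) (t9 b)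
noncomputable def v185 (x1 x2 : ℝ) : ℝ := v128 x1 x2 + v9 x1 x2
theorem h185 (h : In b E x1 x2) : Enc S E (t185 b) (v185 x1 x2) := enc_add (h128 h) (h9 h)

def t186 (b : Bx) : TM := tneg (t185 b)
noncomputable def v186 (x1 x2 : ℝ) : ℝ := -(v185 x1 x2)
theorem h186 (h : In b E x1 x2) : Enc S E (t186 b) (v186 x1 x2) := enc_neg (h185 h)

def g0 (b : Bx) : Bool := and (pos (t61 b)) (and (pos (t23 b)) (and (pos (t53 b)) (and (pos (t64 b)) (and (pos (t79 b)) (and (pos (t74 b)) (and (pos (t98 b)) (and (pos (t110 b)) (and (pos (t112 b)) (and (pos (t35 b)) (or (pos (t21 b)) (pos (t170 b))))))))))))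

def l0 (b : Bx) : Nat := cond (g0 b) 0 (pickb 1 (t170 b) b)

def P0 (x1 x2 : ℝ) : Prop := 0 < v61 x1 x2 ∧ 0 < v23 x1 x2 ∧ 0 < v53 x1 x2 ∧ 0 < v64 x1 x2 ∧ 0 < v79 x1 x2 ∧ 0 < v74 x1 x2 ∧ 0 < v98 x1 x2 ∧ 0 < v110 x1 x2 ∧ 0 < v112 x1 x2 ∧ 0 < v35 x1 x2 ∧ (0 < v21 x1 x2 ∨ 0 < v170 x1 x2)

theorem l0_sound (h : In b E x1 x2) (e : l0 b = 0) : P0 x1 x2 := by
  have e1 : g0 b = true := by
    rcases e2 : g0 b with _ | _
    · unfold l0 at e; rw [e2, cond_false] at e; exact absurd e (pickb_ne _ _ _)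
    · rfl
  exact ⟨pos_sound hS (h61 h) (Bool.and_eq_true_iff.mp e1).1, ⟨pos_sound hS (h23 h) (Bool.and_eq_true_iff.mp (Bool.and_eq_true_iff.mp e1).2).1, ⟨pos_sound hS (h53 h) (Bool.and_eq_true_iff.mp (Bool.and_eq_true_iff.mp (Bool.and_eq_true_iff.mp e1).2).2).1, ⟨pos_sound hS (h64 h) (Bool.and_eq_true_iff.mp (Bool.and_eq_true_iff.mp (Bool.and_eq_true_iff.mp (Bool.and_eq_true_iff.mp e1).2).2).2).1, ⟨pos_sound hS (h79 h) (Bool.and_eq_true_iff.mp (Bool.and_eq_true_iff.mp (Bool.and_eq_true_iff.mp (Bool.and_eq_true_iff.mp (Bool.and_eq_true_iff.mp e1).2).2).2).2).1, ⟨pos_sound hS (h74 h) (Bool.and_eq_true_iff.mp (Bool.and_eq_true_iff.mp (Bool.and_eq_true_iff.mp (Bool.and_eq_true_iff.mp (Bool.and_eq_true_iff.mp (Bool.and_eq_true_iff.mp e1).2).2).2).2).2).1, ⟨pos_sound hS (h98 h) (Bool.and_eq_true_iff.mp (Bool.and_eq_true_iff.mp (Bool.and_eq_true_iff.mp (Bool.and_eq_true_iff.mp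 (Bool.and_eq_true_iff.mp (Bool.and_eq_true_iff.mp (Bool.and_eq_true_iff.mp e1).2).2).2).2).2).2).1, ⟨pos_sound hS (h110 h) (Bool.and_eq_true_iff.mp (Bool.and_eq_true_iff.mp (Bool.and_eq_true_iff.mp (Bool.and_eq_true_iff.mp (Bool.and_eq_true_iff.mp (Bool.and_eq_true_iff.mp (Bool.and_eq_true_iff.mp (Bool.and_eq_true_iff.mp e1).2).2).2).2).2).2).2).1, ⟨pos_sound hS (h112 h) (Bool.and_eq_true_iff.mp (Bool.and_eq_true_iff.mp (Bool.and_eq_true_iff.mp (Bool.and_eq_true_iff.mp (Bool.and_eq_true_iff.mp (Bool.and_eq_true_iff.mp (Bool.and_eq_true_iff.mp (Bool.and_eq_true_iff.mp (Bool.and_eq_true_iff.mp e1).2).2).2).2).2).2).2).2).1, ⟨pos_sound hS (h35 h) (Bool.and_eq_true_iff.mp (Bool.and_eq_true_iff.mp (Bool.and_eq_true_iff.mp (Bool.and_eq_true_iff.mp (Bool.and_eq_true_iff.mp (Bool.and_eq_true_iff.mp (Bool.and_eq_true_iff.mp (Bool.and_eq_true_iff.mp (Bool.and_eq_true_iff.mp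 (Bool.and_eq_true_iff.mp e1).2).2).2).2).2).2).2).2).2).1, ((Bool.or_eq_true_iff.mp (Bool.and_eq_true_iff.mp (Bool.and_eq_true_iff.mp (Bool.and_eq_true_iff.mp (Bool.and_eq_true_iff.mp (Bool.and_eq_true_iff.mp (Bool.and_eq_true_iff.mp (Bool.and_eq_true_iff.mp (Bool.and_eq_true_iff.mp (Bool.and_eq_true_iff.mp (Bool.and_eq_true_iff.mp e1).2).2).2).2).2).2).2).2).2).2).imp (fun a => pos_sound hS (h21 h) a) (fun a => pos_sound hS (h170 h) a))⟩⟩⟩⟩⟩⟩⟩⟩⟩⟩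

def g1 (b : Bx) : Bool := or (pos (t173 b)) (or (pos (t138 b)) (or (pos (t175 b)) (or (pos (t139 b)) (or (pos (t176 b)) (or (pos (t179 b)) (or (pos (t181 b)) (or (pos (t182 b)) (or (pos (t183 b)) (or (pos (t184 b)) (pos (t186 b)))))))))))

def l1 (b : Bx) : Nat := cond (g1 b) 0 (l0 b)

def P1 (x1 x2 : ℝ) : Prop := (0 < v173 x1 x2 ∨ 0 < v138 x1 x2 ∨ 0 < v175 x1 x2 ∨ 0 < v139 x1 x2 ∨ 0 < v176 x1 x2 ∨ 0 < v179 x1 x2 ∨ 0 < v181 x1 x2 ∨ 0 < v182 x1 x2 ∨ 0 < v183 x1 x2 ∨ 0 < v184 x1 x2 ∨ 0 < v186 x1 x2) ∨ (P0 x1 x2)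

theorem l1_sound (h : In b E x1 x2) (e : l1 b = 0) : P1 x1 x2 := by
  unfold l1 at e
  rcases e1 : g1 b with _ | _
  · rw [e1, cond_false] at e
    have z0 : l0 b = 0 := e
    exact Or.inr (l0_sound h z0)
  · exact Or.inl (((Bool.or_eq_true_iff.mp e1).imp (fun a => pos_sound hS (h173 h) a) (fun a => ((Bool.or_eq_true_iff.mp a).imp (fun a => pos_sound hS (h138 h) a) (fun a => ((Bool.or_eq_true_iff.mp a).imp (fun a => pos_sound hS (h175 h) a) (fun a => ((Bool.or_eq_true_iff.mp a).imp (fun a => pos_sound hS (h139 h) a) (fun a => ((Bool.or_eq_true_iff.mp a).imp (fun a => pos_sound hS (h176 h) a) (fun a => ((Bool.or_eq_true_iff.mp a).imp (fun a => pos_sound hS (h179 h) a) (fun a => ((Bool.or_eq_true_iff.mp a).imp (fun a => pos_sound hS (h181 h) a) (fun a => ((Bool.or_eq_true_iff.mp a).imp (fun a => pos_sound hS (h182 h) a) (fun a => ((Bool.or_eq_true_iff.mp a).imp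 (fun a => pos_sound hS (h183 h) a) (fun a => ((Bool.or_eq_true_iff.mp a).imp (fun a => pos_sound hS (h184 h) a) (fun a => pos_sound hS (h186 h) a)))))))))))))))))))))

def f (b : Bx) : Nat := l1 b

/-- the statement -/
def Q (x1 x2 : ℝ) : Prop := P1 x1 x2

theorem f_sound (b : Bx) (hb : f b = 0) (x1 x2 : ℝ) (hm : Mem S b x1 x2) : Q x1 x2 := by
  obtain ⟨E, h⟩ := pt_of_mem hm
  have h : In b E x1 x2 := h
  unfold f at hb
  have e := hb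
  have z1 : l1 b = 0 := e
  exact (l1_sound h z1)

/-- the box -/
def b0 : Bx := ⟨697415773, 0, 232471926, 0, 268435456, 268435457⟩

theorem chk_all {n : ℕ} {b : Bx} (h : chk f n b = true) (x1 x2 : ℝ) (hm : Mem S b x1 x2) : Q x1 x2 :=
  chk_sound (fun b hb x1 x2 hm => f_sound b hb x1 x2 hm) n b h x1 x2 hm


end Pool.Agent.Strip051.LB.ChB00U_pm_112
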