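import Pool.Agent.Strip051.LB.ChB00U_pm_112.Defs
import Pool.Agent.Strip051.LB.Slope
import Pool.Agent.Strip051.LB.Star
import Pool.Agent.Strip051.LB.Cf

/-! # LINE tight chart ChB00U_pm_112: slopes -/

namespace Pool.Agent.Strip051.LB.ChB00U_pm_112

open Pool.Agent.Strip051.LB Pool.Agent.Strip051.LB.Fn Pool.Agent.Strip051.LB.Fc Pool.Agent.StripNear

set_option maxRecDepth 100000
set_option linter.all false

noncomputable def v42 (x1 x2 : ℝ) : ℝ := v41 x1 x2 - v5 x1 x2

noncomputable def v43 (x1 x2 : ℝ) : ℝ := -(v5 x1 x2)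

noncomputable def v46 (x1 x2 : ℝ) : ℝ := (v45 x1 x2) ^ 2

noncomputable def v48 (x1 x2 : ℝ) : ℝ := -(v47 x1 x2)

noncomputable def v49 (x1 x2 : ℝ) : ℝ := (v19 x1 x2) ^ 2

noncomputable def v51 (x1 x2 : ℝ) : ℝ := -(v50 x1 x2)

noncomputable def v52 (x1 x2 : ℝ) : ℝ := v5 x1 x2 - v49 x1 x2

noncomputable def v57 (x1 x2 : ℝ) : ℝ := (v56 x1 x2) ^ 2

noncomputable def v60 (x1 x2 : ℝ) : ℝ := v46 x1 x2 + v57 x1 x2

noncomputable def v62 (x1 x2 : ℝ) : ℝ := v60 x1 x2 - v5 x1 x2

noncomputable def v77 (x1 x2 : ℝ) : ℝ := v5 x1 x2 - v57 x1 x2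

noncomputable def v78 (x1 x2 : ℝ) : ℝ := -(v59 x1 x2)

noncomputable def v82 (x1 x2 : ℝ) : ℝ := -(v81 x1 x2)

noncomputable def v85 (x1 x2 : ℝ) : ℝ := -(v84 x1 x2)

noncomputable def v103 (x1 x2 : ℝ) : ℝ := -(v102 x1 x2)

noncomputable def v104 (x1 x2 : ℝ) : ℝ := v91 x1 x2 * v100 x1 x2

noncomputable def v116 (x1 x2 : ℝ) : ℝ := -(v115 x1 x2)

noncomputable def v117 (x1 x2 : ℝ) : ℝ := -(v104 x1 x2)

noncomputable def v122 (x1 x2 : ℝ) : ℝ := -(v121 x1 x2)

noncomputable def v129 (x1 x2 : ℝ) : ℝ := v7 x1 x2 * v20 x1 x2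

noncomputable def v131 (x1 x2 : ℝ) : ℝ := v19 x1 x2 * v0 x1 x2

noncomputable def v132 (x1 x2 : ℝ) : ℝ := -(v0 x1 x2)

noncomputable def v133 (x1 x2 : ℝ) : ℝ := v129 x1 x2 - v131 x1 x2

noncomputable def v135 (x1 x2 : ℝ) : ℝ := v133 x1 x2 * v126 x1 x2

noncomputable def v137 (x1 x2 : ℝ) : ℝ := v135 x1 x2 - v9 x1 x2

noncomputable def v152 (x1 x2 : ℝ) : ℝ := v56 x1 x2 - v3 x1 x2

structure Cx (x1 x2 : ℝ) : Prop where
  hc : v7 x1 x2 ^ 2 + x1 ^ 2 = 1
  p23 : 0 < v23 x1 x2
  p53 : 0 < v53 x1 x2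
  p64 : 0 < v64 x1 x2
  p79 : 0 < v79 x1 x2
  p74 : 0 < v74 x1 x2
  p98 : 0 < v98 x1 x2
  p110 : 0 < v110 x1 x2
  p112 : 0 < v112 x1 x2
  p35 : 0 < v35 x1 x2

variable {x1 x2 : ℝ}

theorem s3q (x1 x2 : ℝ) : v2 x1 x2 ^ 2 = 3 := by
  rw [v2]; exact s3sq

theorem s3ne (x1 x2 : ℝ) : v2 x1 x2 ≠ 0 := by
  rw [v2]; positivity

theorem s1 (c : Cx x1 x2) : v1 x1 x2 = v19 x1 x2 + v27 x1 x2 * v43 x1 x2 := by
  simp only [v1, v5, v11, v19, v27, v43]
  (try push_cast)
  first | ring | grind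

theorem s22 (c : Cx x1 x2) : v22 x1 x2 = v49 x1 x2 + v27 x1 x2 * v51 x1 x2 := by
  have a0 : (v1 x1 x2 + v19 x1 x2) * v1 x1 x2 = (v1 x1 x2 + v19 x1 x2) * (v19 x1 x2 + v27 x1 x2 * v43 x1 x2) := congrArg (fun z => (v1 x1 x2 + v19 x1 x2) * z) (s1 c)
  try simp only [v1, v5, v11, v19, v22, v27, v43, v49, v50, v51] at a0
  simp only [v1, v5, v11, v19, v22, v27, v43, v49, v50, v51]
  (try push_cast at a0 ⊢)
  first | linear_combination a0 | ring | grind

theorem s23 (c : Cx x1 x2) : v23 x1 x2 = v52 x1 x2 + v27 x1 x2 * v50 x1 x2 := by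
  have a1 := s22 c
  try simp only [v1, v5, v11, v19, v23, v27, v50, v51, v52] at a1
  simp only [v1, v5, v11, v19, v23, v27, v50, v51, v52]
  (try push_cast at a1 ⊢)
  first | linear_combination -a1 | ring | grind

theorem q24 (c : Cx x1 x2) : v52 x1 x2 = v20 x1 x2 ^ 2 := by
  have hc := c.hc
  have h3 := s3q x1 x2
  simp only [v0, v3, v5, v11, v13, v15, v17, v19, v20, v49, v52] at hc ⊢
  push_cast at hc ⊢
  grind

theorem s24 (c : Cx x1 x2) : v24 x1 x2 = v20 x1 x2 + v27 x1 x2 * v55 x1 x2 := by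
  have a0 := s23 c
  have e : 0 < Real.sqrt (v23 x1 x2) + v20 x1 x2 := by
    have e := c.p53
    simp only [v0, v5, v15, v20, v23, v24, v53] at e ⊢
    push_cast at e ⊢
    linarith
  have b := sl_sqrt a0 (q24 c) (le_of_lt c.p23) e
  clear a0
  try simp only [v0, v1, v5, v11, v15, v19, v20, v23, v24, v27, v50, v52, v53, v54, v55] at b
  simp only [v0, v1, v5, v11, v15, v19, v20, v23, v24, v27, v50, v52, v53, v54, v55]
  (try push_cast at b ⊢)
  first | linear_combination b | ring | grind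

theorem s25 (c : Cx x1 x2) : v25 x1 x2 = v45 x1 x2 + v27 x1 x2 * v43 x1 x2 := by
  have a0 := s1 c
  try simp only [v1, v5, v11, v19, v25, v27, v43, v45] at a0
  simp only [v1, v5, v11, v19, v25, v27, v43, v45]
  (try push_cast at a0 ⊢)
  first | linear_combination a0 | ring | grind

theorem s26 (c : Cx x1 x2) : v26 x1 x2 = v56 x1 x2 + v27 x1 x2 * v55 x1 x2 := by
  have a0 := s24 c
  try simp only [v0, v1, v11, v15, v19, v20, v26, v27, v56] at a0
  simp only [v0, v1, v11, v15, v19, v20, v26, v27, v56]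
  (try push_cast at a0 ⊢)
  first | linear_combination a0 | ring | grind

theorem s39 (c : Cx x1 x2) : v39 x1 x2 = v46 x1 x2 + v27 x1 x2 * v48 x1 x2 := by
  have a0 : (v25 x1 x2 + v45 x1 x2) * v25 x1 x2 = (v25 x1 x2 + v45 x1 x2) * (v45 x1 x2 + v27 x1 x2 * v43 x1 x2) := congrArg (fun z => (v25 x1 x2 + v45 x1 x2) * z) (s25 c)
  try simp only [v1, v5, v11, v19, v25, v27, v39, v43, v45, v46, v47, v48] at a0
  simp only [v1, v5, v11, v19, v25, v27, v39, v43, v45, v46, v47, v48]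
  (try push_cast at a0 ⊢)
  first | linear_combination a0 | ring | grind

theorem s40 (c : Cx x1 x2) : v40 x1 x2 = v57 x1 x2 + v27 x1 x2 * v59 x1 x2 := by
  have a0 : (v26 x1 x2 + v56 x1 x2) * v26 x1 x2 = (v26 x1 x2 + v56 x1 x2) * (v56 x1 x2 + v27 x1 x2 * v55 x1 x2) := congrArg (fun z => (v26 x1 x2 + v56 x1 x2) * z) (s26 c)
  try simp only [v0, v1, v11, v15, v19, v20, v26, v27, v40, v56, v57, v58, v59] at a0
  simp only [v0, v1, v11, v15, v19, v20, v26, v27, v40, v56, v57, v58, v59]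
  (try push_cast at a0 ⊢)
  first | linear_combination a0 | ring | grind

theorem s41 (c : Cx x1 x2) : v41 x1 x2 = v60 x1 x2 + v27 x1 x2 * v61 x1 x2 := by
  have a0 := s39 c
  have a1 := s40 c
  try simp only [v1, v11, v19, v25, v27, v41, v45, v47, v48, v60, v61] at a0
  try simp only [v1, v11, v19, v25, v27, v41, v45, v47, v48, v60, v61] at a1
  simp only [v1, v11, v19, v25, v27, v41, v45, v47, v48, v60, v61]
  (try push_cast at a0 a1 ⊢)
  first | linear_combination a0 + a1 | ring | grind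

theorem s42 (c : Cx x1 x2) : v42 x1 x2 = v62 x1 x2 + v27 x1 x2 * v61 x1 x2 := by
  have a0 := s41 c
  try simp only [v1, v5, v11, v19, v25, v27, v41, v42, v45, v47, v60, v61, v62] at a0
  simp only [v1, v5, v11, v19, v25, v27, v41, v42, v45, v47, v60, v61, v62]
  (try push_cast at a0 ⊢)
  first | linear_combination a0 | ring | grind

theorem s64 (c : Cx x1 x2) : v64 x1 x2 = v77 x1 x2 + v27 x1 x2 * v78 x1 x2 := by
  have a1 := s40 c
  try simp only [v1, v5, v11, v19, v27, v64, v77, v78] at a1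
  simp only [v1, v5, v11, v19, v27, v64, v77, v78]
  (try push_cast at a1 ⊢)
  first | linear_combination -a1 | ring | grind

theorem q65 (c : Cx x1 x2) : v77 x1 x2 = v66 x1 x2 ^ 2 := by
  have hc := c.hc
  have h3 := s3q x1 x2
  simp only [v0, v3, v5, v11, v13, v15, v17, v20, v56, v57, v66, v77] at hc ⊢
  push_cast at hc ⊢
  grind

theorem s65 (c : Cx x1 x2) : v65 x1 x2 = v66 x1 x2 + v27 x1 x2 * v82 x1 x2 := by
  have a0 := s64 c
  have e : 0 < Real.sqrt (v64 x1 x2) + v66 x1 x2 := by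
    have e := c.p79
    simp only [v5, v11, v64, v65, v66, v79] at e ⊢
    push_cast at e ⊢
    linarith
  have b := sl_sqrt a0 (q65 c) (le_of_lt c.p64) e
  clear a0
  try simp only [v1, v5, v11, v19, v27, v64, v65, v66, v77, v78, v79, v80, v81, v82] at b
  simp only [v1, v5, v11, v19, v27, v64, v65, v66, v77, v78, v79, v80, v81, v82]
  (try push_cast at b ⊢)
  first | linear_combination b | ring | grind

theorem s67 (c : Cx x1 x2) : v67 x1 x2 = v83 x1 x2 + v27 x1 x2 * v85 x1 x2 := by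
  have a0 := s65 c
  try simp only [v1, v11, v19, v27, v66, v67, v82, v83, v84, v85] at a0
  simp only [v1, v11, v19, v27, v66, v67, v82, v83, v84, v85]
  (try push_cast at a0 ⊢)
  first | linear_combination (2 : ℝ) * a0 | ring | grind

theorem s68 (c : Cx x1 x2) : v68 x1 x2 = v86 x1 x2 + v27 x1 x2 * v85 x1 x2 := by
  have a1 := s67 c
  try simp only [v1, v5, v11, v19, v27, v66, v67, v68, v83, v84, v85, v86] at a1
  simp only [v1, v5, v11, v19, v27, v66, v67, v68, v83, v84, v85, v86]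
  (try push_cast at a1 ⊢)
  first | linear_combination a1 | ring | grind

theorem s69 (c : Cx x1 x2) : v69 x1 x2 = v87 x1 x2 + v27 x1 x2 * v88 x1 x2 := by
  have a1 : (v2 x1 x2) * v26 x1 x2 = (v2 x1 x2) * (v56 x1 x2 + v27 x1 x2 * v55 x1 x2) := congrArg (fun z => (v2 x1 x2) * z) (s26 c)
  try simp only [v0, v1, v2, v11, v15, v19, v20, v26, v27, v56, v69, v87, v88] at a1
  simp only [v0, v1, v2, v11, v15, v19, v20, v26, v27, v56, v69, v87, v88]
  (try push_cast at a1 ⊢)
  first | linear_combination a1 | ring | grind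

theorem s70 (c : Cx x1 x2) : v70 x1 x2 = v89 x1 x2 + v27 x1 x2 * v90 x1 x2 := by
  have a0 := s69 c
  have a1 := s65 c
  try simp only [v1, v11, v19, v27, v66, v70, v82, v89, v90] at a0
  try simp only [v1, v11, v19, v27, v66, v70, v82, v89, v90] at a1
  simp only [v1, v11, v19, v27, v66, v70, v82, v89, v90]
  (try push_cast at a0 a1 ⊢)
  first | linear_combination a0 - a1 | ring | grind

theorem s71 (c : Cx x1 x2) : v71 x1 x2 = v91 x1 x2 + v27 x1 x2 * v95 x1 x2 := by
  have a0 : (v70 x1 x2) * v68 x1 x2 = (v70 x1 x2) * (v86 x1 x2 + v27 x1 x2 * v85 x1 x2) := congrArg (fun z => (v70 x1 x2) * z) (s68 c)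
  have a1 : (v86 x1 x2) * v70 x1 x2 = (v86 x1 x2) * (v89 x1 x2 + v27 x1 x2 * v90 x1 x2) := congrArg (fun z => (v86 x1 x2) * z) (s70 c)
  try simp only [v1, v5, v11, v19, v27, v66, v67, v68, v70, v71, v83, v84, v85, v86, v89, v90, v91, v92, v94, v95] at a0
  try simp only [v1, v5, v11, v19, v27, v66, v67, v68, v70, v71, v83, v84, v85, v86, v89, v90, v91, v92, v94, v95] at a1
  simp only [v1, v5, v11, v19, v27, v66, v67, v68, v70, v71, v83, v84, v85, v86, v89, v90, v91, v92, v94, v95]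
  (try push_cast at a0 a1 ⊢)
  first | linear_combination a0 + a1 | ring | grind

theorem s72 (c : Cx x1 x2) : v72 x1 x2 = v96 x1 x2 + v27 x1 x2 * v88 x1 x2 := by
  have a1 := s69 c
  try simp only [v1, v5, v11, v19, v27, v72, v96] at a1
  simp only [v1, v5, v11, v19, v27, v72, v96]
  (try push_cast at a1 ⊢)
  first | linear_combination a1 | ring | grind

theorem s73 (c : Cx x1 x2) : v73 x1 x2 = v97 x1 x2 + v27 x1 x2 * v90 x1 x2 := by
  have a0 := s72 c
  have a1 := s65 c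
  try simp only [v1, v5, v11, v19, v27, v66, v72, v73, v82, v90, v96, v97] at a0
  try simp only [v1, v5, v11, v19, v27, v66, v72, v73, v82, v90, v96, v97] at a1
  simp only [v1, v5, v11, v19, v27, v66, v72, v73, v82, v90, v96, v97]
  (try push_cast at a0 a1 ⊢)
  first | linear_combination a0 - a1 | ring | grind

theorem s74 (c : Cx x1 x2) : v74 x1 x2 = v98 x1 x2 + v27 x1 x2 * v99 x1 x2 := by
  have a0 := s73 c
  try simp only [v1, v5, v11, v19, v27, v66, v72, v73, v74, v90, v96, v97, v98, v99] at a0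
  simp only [v1, v5, v11, v19, v27, v66, v72, v73, v74, v90, v96, v97, v98, v99]
  (try push_cast at a0 ⊢)
  first | linear_combination (2 : ℝ) * a0 | ring | grind

theorem s75 (c : Cx x1 x2) : v75 x1 x2 = v100 x1 x2 + v27 x1 x2 * v103 x1 x2 := by
  have a0 := s74 c
  have b := sl_inv a0 (c.p74).ne' (c.p98).ne'
  clear a0
  try simp only [v1, v5, v11, v19, v27, v66, v72, v73, v74, v75, v90, v96, v97, v98, v99, v100, v101, v102, v103] at b
  simp only [v1, v5, v11, v19, v27, v66, v72, v73, v74, v75, v90, v96, v97, v98, v99, v100, v101, v102, v103]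
  (try push_cast at b ⊢)
  first | linear_combination b | ring | grind

theorem s76 (c : Cx x1 x2) : v76 x1 x2 = v104 x1 x2 + v27 x1 x2 * v108 x1 x2 := by
  have a0 : (v75 x1 x2) * v71 x1 x2 = (v75 x1 x2) * (v91 x1 x2 + v27 x1 x2 * v95 x1 x2) := congrArg (fun z => (v75 x1 x2) * z) (s71 c)
  have a1 : (v91 x1 x2) * v75 x1 x2 = (v91 x1 x2) * (v100 x1 x2 + v27 x1 x2 * v103 x1 x2) := congrArg (fun z => (v91 x1 x2) * z) (s75 c)
  try simp only [v1, v11, v19, v27, v76, v95, v103, v104, v105, v106, v108] at a0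
  try simp only [v1, v11, v19, v27, v76, v95, v103, v104, v105, v106, v108] at a1
  simp only [v1, v11, v19, v27, v76, v95, v103, v104, v105, v106, v108]
  (try push_cast at a0 a1 ⊢)
  first | linear_combination a0 + a1 | ring | grind

theorem s123 (c : Cx x1 x2) : v123 x1 x2 = v129 x1 x2 + v27 x1 x2 * v130 x1 x2 := by
  have a1 : (v7 x1 x2) * v24 x1 x2 = (v7 x1 x2) * (v20 x1 x2 + v27 x1 x2 * v55 x1 x2) := congrArg (fun z => (v7 x1 x2) * z) (s24 c)
  try simp only [v0, v1, v11, v15, v19, v20, v27, v123, v129, v130] at a1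
  simp only [v0, v1, v11, v15, v19, v20, v27, v123, v129, v130]
  (try push_cast at a1 ⊢)
  first | linear_combination a1 | ring | grind

theorem s124 (c : Cx x1 x2) : v124 x1 x2 = v131 x1 x2 + v27 x1 x2 * v132 x1 x2 := by
  have a0 : (v0 x1 x2) * v1 x1 x2 = (v0 x1 x2) * (v19 x1 x2 + v27 x1 x2 * v43 x1 x2) := congrArg (fun z => (v0 x1 x2) * z) (s1 c)
  try simp only [v0, v1, v5, v11, v19, v27, v43, v124, v131, v132] at a0
  simp only [v0, v1, v5, v11, v19, v27, v43, v124, v131, v132]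
  (try push_cast at a0 ⊢)
  first | linear_combination a0 | ring | grind

theorem s125 (c : Cx x1 x2) : v125 x1 x2 = v133 x1 x2 + v27 x1 x2 * v134 x1 x2 := by
  have a0 := s123 c
  have a1 := s124 c
  try simp only [v0, v1, v11, v19, v27, v125, v132, v133, v134] at a0
  try simp only [v0, v1, v11, v19, v27, v125, v132, v133, v134] at a1
  simp only [v0, v1, v11, v19, v27, v125, v132, v133, v134]
  (try push_cast at a0 a1 ⊢)
  first | linear_combination a0 - a1 | ring | grind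

theorem s127 (c : Cx x1 x2) : v127 x1 x2 = v135 x1 x2 + v27 x1 x2 * v136 x1 x2 := by
  have a0 : (v126 x1 x2) * v125 x1 x2 = (v126 x1 x2) * (v133 x1 x2 + v27 x1 x2 * v134 x1 x2) := congrArg (fun z => (v126 x1 x2) * z) (s125 c)
  try simp only [v0, v1, v11, v19, v27, v125, v127, v133, v134, v135, v136] at a0
  simp only [v0, v1, v11, v19, v27, v125, v127, v133, v134, v135, v136]
  (try push_cast at a0 ⊢)
  first | linear_combination a0 | ring | grind

theorem s128 (c : Cx x1 x2) : v128 x1 x2 = v137 x1 x2 + v27 x1 x2 * v136 x1 x2 := by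
  have a0 := s127 c
  try simp only [v1, v9, v11, v19, v27, v128, v137] at a0
  simp only [v1, v9, v11, v19, v27, v128, v137]
  (try push_cast at a0 ⊢)
  first | linear_combination a0 | ring | grind

theorem s139 (c : Cx x1 x2) : v139 x1 x2 = v152 x1 x2 + v27 x1 x2 * v55 x1 x2 := by
  have a0 := s26 c
  try simp only [v0, v1, v2, v3, v11, v15, v19, v20, v26, v27, v56, v139, v152] at a0
  simp only [v0, v1, v2, v3, v11, v15, v19, v20, v26, v27, v56, v139, v152]
  (try push_cast at a0 ⊢)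
  first | linear_combination a0 | ring | grind

theorem s140 (c : Cx x1 x2) : v140 x1 x2 = v157 x1 x2 + v27 x1 x2 * v55 x1 x2 := by
  have a0 := s24 c
  try simp only [v0, v1, v2, v3, v11, v15, v19, v20, v27, v140, v157] at a0
  simp only [v0, v1, v2, v3, v11, v15, v19, v20, v27, v140, v157]
  (try push_cast at a0 ⊢)
  first | linear_combination a0 | ring | grind

theorem bD (c : Cx x1 x2) : v62 x1 x2 = 0 := by
  have hc := c.hc
  have h3 := s3q x1 x2
  simp only [v0, v3, v5, v11, v13, v15, v17, v19, v20, v45, v46, v56, v57, v60, v62] at hc ⊢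
  push_cast at hc ⊢
  grind

theorem sD (c : Cx x1 x2) : v42 x1 x2 = v27 x1 x2 * v61 x1 x2 := by
  have h := s42 c
  rw [bD c, zero_add] at h
  exact h

theorem s116 (c : Cx x1 x2) : v116 x1 x2 = v117 x1 x2 + v27 x1 x2 * v122 x1 x2 := by
  have hA := s76 c
  have hd := sD c
  have hs := c.p110
  have hc : v65 x1 x2 ^ 2 = v64 x1 x2 := by
    rw [v65]; exact Real.sq_sqrt (le_of_lt c.p64)
  have hx : v63 x1 x2 - v65 x1 x2 = v42 x1 x2 * (v110 x1 x2)⁻¹ := by
    have g : v63 x1 x2 ^ 2 - v65 x1 x2 ^ 2 = v42 x1 x2 := by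
      rw [hc]; simp only [v0, v1, v5, v25, v26, v39, v40, v41, v42, v63, v64, v110]; push_cast; ring
    have g3 : v110 x1 x2 = v63 x1 x2 + v65 x1 x2 := by
      simp only [v0, v1, v5, v25, v26, v39, v40, v41, v42, v63, v64, v110]; try push_cast
      try ring
    have g2 : 0 < v63 x1 x2 + v65 x1 x2 := by rw [← g3]; exact hs
    rw [g3]; exact diff_of_sq g g2
  have hy : v109 x1 x2 * (v63 x1 x2 - v65 x1 x2) = v109 x1 x2 * (v42 x1 x2 * (v110 x1 x2)⁻¹) := congrArg (fun z => v109 x1 x2 * z) hx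
  have hK : v109 x1 x2 * (v110 x1 x2)⁻¹ * v42 x1 x2 = v109 x1 x2 * (v110 x1 x2)⁻¹ * (v27 x1 x2 * v61 x1 x2) := congrArg (fun z => v109 x1 x2 * (v110 x1 x2)⁻¹ * z) hd
  try simp only [v1, v5, v11, v19, v25, v27, v41, v42, v45, v47, v61, v63, v108, v110, v113, v114, v115, v116, v117, v118, v119, v120, v121, v122] at hA
  try simp only [v1, v5, v11, v19, v25, v27, v41, v42, v45, v47, v61, v63, v108, v110, v113, v114, v115, v116, v117, v118, v119, v120, v121, v122] at hy
  try simp only [v1, v5, v11, v19, v25, v27, v41, v42, v45, v47, v61, v63, v108, v110, v113, v114, v115, v116, v117, v118, v119, v120, v121, v122] at hK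
  simp only [v1, v5, v11, v19, v25, v27, v41, v42, v45, v47, v61, v63, v108, v110, v113, v114, v115, v116, v117, v118, v119, v120, v121, v122]
  (try push_cast at hA hy hK ⊢)
  first | linear_combination -(hA + hy + hK) | grind

theorem bE (c : Cx x1 x2) : v137 x1 x2 = 0 := by
  have hc := c.hc
  have h3 := s3q x1 x2
  have g0 : v2 x1 x2 ≠ 0 := s3ne x1 x2
  simp only [v0, v3, v9, v11, v13, v15, v17, v19, v20, v126, v129, v131, v133, v135, v137] at hc ⊢
  push_cast at hc ⊢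
  grind

theorem hE (c : Cx x1 x2) : v128 x1 x2 = v27 x1 x2 * v136 x1 x2 := by
  have h := s128 c
  rw [bE c, zero_add] at h
  exact h

theorem bC12 (c : Cx x1 x2) : v138 x1 x2 * v117 x1 x2 - v152 x1 x2 * v37 x1 x2 = 0 := by
  have hc := c.hc
  have h3 := s3q x1 x2
  have g0 := (c.p35).ne'
  have g1 := (c.p98).ne'
  simp only [v0, v3, v5, v11, v13, v15, v17, v20, v28, v29, v30, v31, v32, v33, v34, v35, v36, v37, v56, v66, v83, v86, v87, v89, v91, v96, v97, v98, v100, v104, v117, v138, v152] at hc g0 g1 ⊢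
  push_cast at hc g0 g1 ⊢
  grind

theorem hC12 (c : Cx x1 x2) : v138 x1 x2 * v116 x1 x2 - v139 x1 x2 * v37 x1 x2 = v27 x1 x2 * v156 x1 x2 := by
  have a2 : v138 x1 x2 * v116 x1 x2 = v138 x1 x2 * (v117 x1 x2 + v27 x1 x2 * v122 x1 x2) := congrArg (fun z => v138 x1 x2 * z) (s116 c)
  have a3 : v37 x1 x2 * v139 x1 x2 = v37 x1 x2 * (v152 x1 x2 + v27 x1 x2 * v55 x1 x2) := congrArg (fun z => v37 x1 x2 * z) (s139 c)
  have b := bC12 c
  try simp only [v0, v1, v2, v3, v11, v15, v19, v20, v26, v27, v56, v108, v115, v116, v117, v121, v122, v138, v139, v152, v153, v154, v155, v156] at a2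
  try simp only [v0, v1, v2, v3, v11, v15, v19, v20, v26, v27, v56, v108, v115, v116, v117, v121, v122, v138, v139, v152, v153, v154, v155, v156] at a3
  try simp only [v0, v1, v2, v3, v11, v15, v19, v20, v26, v27, v56, v108, v115, v116, v117, v121, v122, v138, v139, v152, v153, v154, v155, v156] at b
  simp only [v0, v1, v2, v3, v11, v15, v19, v20, v26, v27, v56, v108, v115, v116, v117, v121, v122, v138, v139, v152, v153, v154, v155, v156]
  (try push_cast at a2 a3 b ⊢)
  first | linear_combination a2 - a3 + b | grind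

theorem bC32 (c : Cx x1 x2) : v157 x1 x2 * v117 x1 x2 - v152 x1 x2 * v19 x1 x2 = 0 := by
  have hc := c.hc
  have h3 := s3q x1 x2
  have g0 := (c.p98).ne'
  simp only [v0, v3, v5, v11, v13, v15, v17, v19, v20, v56, v66, v83, v86, v87, v89, v91, v96, v97, v98, v100, v104, v117, v152, v157] at hc g0 ⊢
  push_cast at hc g0 ⊢
  grind

theorem hC32 (c : Cx x1 x2) : v140 x1 x2 * v116 x1 x2 - v139 x1 x2 * v1 x1 x2 = v27 x1 x2 * v166 x1 x2 := by
  have a1 : v116 x1 x2 * v140 x1 x2 = v116 x1 x2 * (v157 x1 x2 + v27 x1 x2 * v55 x1 x2) := congrArg (fun z => v116 x1 x2 * z) (s140 c)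
  have a2 : v157 x1 x2 * v116 x1 x2 = v157 x1 x2 * (v117 x1 x2 + v27 x1 x2 * v122 x1 x2) := congrArg (fun z => v157 x1 x2 * z) (s116 c)
  have a3 : v1 x1 x2 * v139 x1 x2 = v1 x1 x2 * (v152 x1 x2 + v27 x1 x2 * v55 x1 x2) := congrArg (fun z => v1 x1 x2 * z) (s139 c)
  have a4 : v152 x1 x2 * v1 x1 x2 = v152 x1 x2 * (v19 x1 x2 + v27 x1 x2 * v43 x1 x2) := congrArg (fun z => v152 x1 x2 * z) (s1 c)
  have b := bC32 c
  try simp only [v0, v1, v2, v3, v5, v11, v15, v19, v20, v26, v27, v43, v56, v108, v115, v116, v117, v121, v122, v139, v140, v152, v157, v158, v159, v160, v162, v163, v164, v165, v166] at a1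
  try simp only [v0, v1, v2, v3, v5, v11, v15, v19, v20, v26, v27, v43, v56, v108, v115, v116, v117, v121, v122, v139, v140, v152, v157, v158, v159, v160, v162, v163, v164, v165, v166] at a2
  try simp only [v0, v1, v2, v3, v5, v11, v15, v19, v20, v26, v27, v43, v56, v108, v115, v116, v117, v121, v122, v139, v140, v152, v157, v158, v159, v160, v162, v163, v164, v165, v166] at a3
  try simp only [v0, v1, v2, v3, v5, v11, v15, v19, v20, v26, v27, v43, v56, v108, v115, v116, v117, v121, v122, v139, v140, v152, v157, v158, v159, v160, v162, v163, v164, v165, v166] at a4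
  try simp only [v0, v1, v2, v3, v5, v11, v15, v19, v20, v26, v27, v43, v56, v108, v115, v116, v117, v121, v122, v139, v140, v152, v157, v158, v159, v160, v162, v163, v164, v165, v166] at b
  simp only [v0, v1, v2, v3, v5, v11, v15, v19, v20, v26, v27, v43, v56, v108, v115, v116, v117, v121, v122, v139, v140, v152, v157, v158, v159, v160, v162, v163, v164, v165, v166]
  (try push_cast at a1 a2 a3 a4 b ⊢)
  first | linear_combination a1 + a2 - a3 - a4 + b | grind

theorem bC13 (c : Cx x1 x2) : v138 x1 x2 * v19 x1 x2 - v157 x1 x2 * v37 x1 x2 = 0 := by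
  have hc := c.hc
  have h3 := s3q x1 x2
  have g0 := (c.p35).ne'
  simp only [v0, v3, v5, v11, v13, v15, v17, v19, v20, v28, v29, v30, v31, v32, v33, v34, v35, v36, v37, v138, v157] at hc g0 ⊢
  push_cast at hc g0 ⊢
  grind

theorem hC13 (c : Cx x1 x2) : v138 x1 x2 * v1 x1 x2 - v140 x1 x2 * v37 x1 x2 = v27 x1 x2 * v168 x1 x2 := by
  have a2 : v138 x1 x2 * v1 x1 x2 = v138 x1 x2 * (v19 x1 x2 + v27 x1 x2 * v43 x1 x2) := congrArg (fun z => v138 x1 x2 * z) (s1 c)
  have a3 : v37 x1 x2 * v140 x1 x2 = v37 x1 x2 * (v157 x1 x2 + v27 x1 x2 * v55 x1 x2) := congrArg (fun z => v37 x1 x2 * z) (s140 c)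
  have b := bC13 c
  try simp only [v0, v1, v2, v3, v5, v11, v15, v19, v20, v27, v43, v138, v140, v155, v157, v167, v168] at a2
  try simp only [v0, v1, v2, v3, v5, v11, v15, v19, v20, v27, v43, v138, v140, v155, v157, v167, v168] at a3
  try simp only [v0, v1, v2, v3, v5, v11, v15, v19, v20, v27, v43, v138, v140, v155, v157, v167, v168] at b
  simp only [v0, v1, v2, v3, v5, v11, v15, v19, v20, v27, v43, v138, v140, v155, v157, v167, v168]
  (try push_cast at a2 a3 b ⊢)
  first | linear_combination a2 - a3 + b | grind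

theorem core (c : Cx x1 x2) (hW : 0 ≤ v27 x1 x2) (hWQ : 0 ≤ v27 x1 x2 * v170 x1 x2) :
    0 ≤ starw_v (v128 x1 x2) (v140 x1 x2) ((-v139 x1 x2)) ((-v138 x1 x2)) (v1 x1 x2) ((-v116 x1 x2)) ((-v37 x1 x2)) := by
  have e1 : (-v139 x1 x2) * v1 x1 x2 - v140 x1 x2 * (-v116 x1 x2) = v27 x1 x2 * v166 x1 x2 := by linear_combination hC32 c
  have e2 : (-v138 x1 x2) * (-v116 x1 x2) - (-v139 x1 x2) * (-v37 x1 x2) = v27 x1 x2 * v156 x1 x2 := by linear_combination hC12 c
  have e3 : v140 x1 x2 * (-v37 x1 x2) - (-v138 x1 x2) * v1 x1 x2 = v27 x1 x2 * v168 x1 x2 := by linear_combination hC13 c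
  have f1 : (-v139 x1 x2) = v169 x1 x2 := by
    simp only [v0, v2, v3, v26, v138, v139, v140, v169]
    try (push_cast; ring)
  have f2 : (-v138 x1 x2) = v167 x1 x2 := by
    simp only [v0, v2, v3, v26, v138, v139, v140, v167]
    try (push_cast; ring)
  rw [starw_eq hW (hE c) e1 e2 e3]
  rw [f1]
  rw [f2]
  exact hWQ

end Pool.Agent.Strip051.LB.ChB00U_pm_112
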